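import Pool.Agent.Work.MP_b41eab_h9.Reduce

/-!
Infinite groups of regular cardinality are not 5-Shelah.
-/

namespace Pool.Agent.Results.MP_b41eab_al.FiveShelah

open scoped Pointwise

universe u

/-- `G` is `n`-Shelah: the `n`-th power of every subset of full cardinality is the whole group. -/
def IsShelah (n : ℕ) (G : Type u) [Group G] : Prop :=
  ∀ A : Set G, Cardinal.mk A = Cardinal.mk G → A ^ n = Set.univ

/-- No group whose cardinality is an infinite regular cardinal is `n`-Shelah for some `n ≤ 5`. -/
theorem result (G : Type u) [Group G] (hG : (Cardinal.mk G).IsRegular) (n : ℕ) (hn : n ≤ 5) :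
    ¬ IsShelah n G := by
  intro h
  -- pass to words of length five
  have mono : ∀ m : ℕ, IsShelah m G → IsShelah (m + 1) G := by
    intro m hm A hA
    rw [pow_succ, hm A hA]
    have hne : A.Nonempty := by
      rw [← Set.nonempty_coe_sort, ← Cardinal.mk_ne_zero_iff, hA]
      exact Cardinal.mk_ne_zero G
    obtain ⟨a, ha⟩ := hne
    refine Set.eq_univ_of_forall fun g => ?_
    exact Set.mem_mul.2 ⟨g * a⁻¹, Set.mem_univ _, a, ha, by group⟩
  have h5 : IsShelah 5 G := by
    obtain ⟨k, hk⟩ := Nat.exists_eq_add_of_le hn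
    have key : ∀ j : ℕ, IsShelah (n + j) G := by
      intro j
      induction j with
      | zero => exact h
      | succ j ih => exact mono _ ih
    rw [hk]
    exact key k
  refine Pool.Shelah.not_she_five hG fun A hA g => ?_
  have hg : g ∈ A ^ 5 := by rw [h5 A hA]; exact Set.mem_univ g
  obtain ⟨f, hf⟩ := Set.mem_pow.1 hg
  refine ⟨List.ofFn fun i => (f i : G), by simp, ?_, hf⟩
  intro y hy
  obtain ⟨i, rfl⟩ := (List.mem_ofFn' _ _).1 hy
  exact (f i).2

end Pool.Agent.Results.MP_b41eab_al.FiveShelah
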