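import Mathlib
import Pool.Agent.Work.MP_b41eab_39.SingC

/-!
# Every `4`-Shelah group is finite

If `G` is an infinite group and `n` is at most `4`, then some subset `A` of `G` with the
cardinality of `G` satisfies `A ^ n ≠ G`.
-/

universe u

open scoped Pointwise Cardinal

namespace Pool.Agent.Results.MP_b41eab_al.FourShelah

theorem result {G : Type u} [Group G] [Infinite G] {n : ℕ} (hn : n ≤ 4) :
    ∃ A : Set G, #A = #G ∧ A ^ n ≠ Set.univ := by
  have hinf : Cardinal.aleph0 ≤ #G := Cardinal.aleph0_le_mk G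
  obtain ⟨A, hA, hA4⟩ := Pool.Agent.Work.MP_b41eab_39.all_four hinf
  refine ⟨A, hA, fun h => hA4 ?_⟩
  have hne : A.Nonempty := by
    rw [Set.nonempty_iff_ne_empty]
    rintro rfl
    rw [Cardinal.mk_eq_zero] at hA
    exact Cardinal.aleph0_ne_zero (le_antisymm (hA ▸ hinf) zero_le)
  have := Pool.Agent.Work.MP_b41eab_39.pow_univ_mono (k := 4 - n) hne h
  rwa [Nat.add_sub_cancel' hn] at this

end Pool.Agent.Results.MP_b41eab_al.FourShelah
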