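import Pool.Agent.Work.MP_b41eab_lf.Final

/-!
# Shelah groups with an involution modulo the centre

Let `G` be a group of infinite regular cardinality.

1. If `G / Z(G)` has an involution, then `G` is not `7`-Shelah.
2. If `|G|` is uncountable and all proper subgroups of `G` have cardinality `< |G|`, then for any two
   distinct involutions `r, s` of `G / Z(G)` fewer than `|G|` elements `f` of `G / Z(G)` are such
   that `⟨r, s, f⟩` has a nontrivial normal subgroup which is finite or abelian.
3. So if `|G|` is uncountable, `G / Z(G)` has an involution and every nontrivial finitely generated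
   subgroup of `G / Z(G)` has a nontrivial normal subgroup which is finite or abelian (for example
   `G` locally finite), then `G` has a proper subgroup of cardinality `|G|`, and `G` is not
   `n`-Shelah for any `n`.
4. If for every finitely generated subgroup `F` of `G` the intersection of the derived series of `F`
   is contained in `Z(G)` (for example `G` locally residually soluble), then `G` is not `n`-Shelah
   for any `n`; if `G` is not abelian, it has a proper subgroup of cardinality `|G|`.
5. (Conditional on the theorem of Feit and Thompson.)  If `|G|` is uncountable and `G / Z(G)` is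
   locally finite, then `G` is not `n`-Shelah for any `n`.
-/

open Cardinal Subgroup
open scoped Pointwise

namespace Pool.Agent.Results.MP_b41eab_al.InvolutionShelah

universe u

/-- `G` is `n`-Shelah: the `n`-th power of every subset of full cardinality is the whole group. -/
def IsShelah (n : ℕ) (G : Type u) [Group G] : Prop :=
  ∀ A : Set G, #A = #G → A ^ n = Set.univ

/-- `F` has a nontrivial normal subgroup which is finite or abelian. -/
def FinAb (F : Type u) [Group F] : Prop :=
  ∃ N : Subgroup F, N.Normal ∧ N ≠ ⊥ ∧ (Finite N ∨ ∀ a ∈ N, ∀ b ∈ N, a * b = b * a)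

/-- from powers of sets to lists -/
theorem she {n : ℕ} {G : Type u} [Group G] (h : IsShelah n G) : Pool.Shelah.She G n := by
  intro A hA g
  have hg : g ∈ A ^ n := by rw [h A hA]; exact Set.mem_univ g
  obtain ⟨f, hf⟩ := Set.mem_pow.1 hg
  refine ⟨List.ofFn fun i => (f i : G), by simp, ?_, hf⟩
  intro y hy
  obtain ⟨i, rfl⟩ := (List.mem_ofFn' _ _).1 hy
  exact (f i).2

/-- a group which is not a Jonsson group -/
theorem large_sub {G : Type u} [Group G] (h : ¬ Pool.Shelah.LF.Jon G) :
    ∃ H : Subgroup G, H ≠ ⊤ ∧ #H = #G := by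
  unfold Pool.Shelah.LF.Jon at h
  push Not at h
  obtain ⟨H, h1, h2⟩ := h
  exact ⟨H, h2, Pool.Shelah.mk_eq_of_not_small h1⟩

theorem result :
    -- 1. the value `7`
    (∀ (G : Type u) [Group G], (#G).IsRegular → (∃ t : G, t ∉ center G ∧ t * t ∈ center G) →
      ∀ n ≤ 7, ¬ IsShelah n G) ∧
    -- 2. three generators, two of them involutions, in a Jonsson group
    (∀ (G : Type u) [Group G], (#G).IsRegular → ℵ₀ < #G → (∀ H : Subgroup G, H ≠ ⊤ → #H < #G) →
      ∀ r s : G ⧸ center G, r ≠ s → r ≠ 1 → s ≠ 1 → r * r = 1 → s * s = 1 →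
        #{f : G ⧸ center G | FinAb (closure ({r, s, f} : Set (G ⧸ center G)))} < #G) ∧
    -- 3. an involution and a local condition
    (∀ (G : Type u) [Group G], (#G).IsRegular → ℵ₀ < #G →
      (∃ t : G, t ∉ center G ∧ t * t ∈ center G) →
      (∀ S : Finset (G ⧸ center G), closure (S : Set (G ⧸ center G)) ≠ ⊥ →
        FinAb (closure (S : Set (G ⧸ center G)))) →
      (∃ H : Subgroup G, H ≠ ⊤ ∧ #H = #G) ∧ ∀ n, ¬ IsShelah n G) ∧
    -- 4. derived series
    (∀ (G : Type u) [Group G], (#G).IsRegular →
      (∀ (S : Finset G) (c : closure (S : Set G)),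
        (∀ k, c ∈ derivedSeries (closure (S : Set G)) k) → (c : G) ∈ center G) →
      ((∃ a b : G, a * b ≠ b * a) → ∃ H : Subgroup G, H ≠ ⊤ ∧ #H = #G) ∧
        ∀ n, ¬ IsShelah n G) ∧
    -- 5. conditional on the Feit-Thompson theorem
    ((∀ (F : Type u) [Group F] [Finite F], Odd (Nat.card F) → Group.IsSolvable F) →
      ∀ (G : Type u) [Group G], (#G).IsRegular → ℵ₀ < #G →
      (∀ S : Finset (G ⧸ center G), Finite (closure (S : Set (G ⧸ center G)))) →
      ((∃ a b : G, a * b ≠ b * a) → ∃ H : Subgroup G, H ≠ ⊤ ∧ #H = #G) ∧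
        ∀ n, ¬ IsShelah n G) := by
  refine ⟨?_, ?_, ?_, ?_, ?_⟩
  · intro G _ hreg ⟨t, ht, ht2⟩ n hn h
    -- pass to words of length seven
    have mono : ∀ m : ℕ, IsShelah m G → IsShelah (m + 1) G := by
      intro m hm A hA
      rw [pow_succ, hm A hA]
      have hne : A.Nonempty := by
        rw [← Set.nonempty_coe_sort, ← Cardinal.mk_ne_zero_iff, hA]
        exact Cardinal.mk_ne_zero G
      obtain ⟨a, ha⟩ := hne
      refine Set.eq_univ_of_forall fun g => ?_
      exact Set.mem_mul.2 ⟨g * a⁻¹, Set.mem_univ _, a, ha, by group⟩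
    have h7 : IsShelah 7 G := by
      obtain ⟨k, hk⟩ := Nat.exists_eq_add_of_le hn
      have key : ∀ j : ℕ, IsShelah (n + j) G := by
        intro j
        induction j with
        | zero => exact h
        | succ j ih => exact mono _ ih
      rw [hk]
      exact key k
    exact Pool.Shelah.LF.part1 hreg (she h7) ht ht2
  · intro G _ hreg hunc hJ r s hrs hr1 hs1 hr2 hs2
    refine Pool.Shelah.LF.part2 hreg hunc (fun H hH => ?_) hrs hr1 hs1 hr2 hs2
    by_contra hne
    exact hH (hJ H hne)
  · intro G _ hreg hunc ⟨t, ht, ht2⟩ hloc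
    have key : ¬ Pool.Shelah.LF.Jon G := fun hJ =>
      Pool.Shelah.LF.part2' hreg hunc hJ ht ht2 hloc
    exact ⟨large_sub key, fun n h => key (Pool.Shelah.LF.jon_of_she (she h))⟩
  · intro G _ hreg hres
    refine ⟨fun ⟨a, b, hab⟩ => large_sub fun hJ => ?_, fun n h =>
      Pool.Shelah.LF.part3 hreg (she h) hres⟩
    obtain ⟨S, c, h1, h2⟩ := Pool.Shelah.LF.resid hreg hJ hab
    exact h2 (hres S c h1)
  · intro hFT G _ hreg hunc hloc
    have key : ∀ a b : G, a * b ≠ b * a → ¬ Pool.Shelah.LF.Jon G := fun a b hab hJ =>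
      Pool.Shelah.LF.part4 hFT hreg hunc hJ hab hloc
    refine ⟨fun ⟨a, b, hab⟩ => large_sub (key a b hab), fun n h => ?_⟩
    by_cases hab : ∃ a b : G, a * b ≠ b * a
    · obtain ⟨a, b, hab⟩ := hab
      exact key a b hab (Pool.Shelah.LF.jon_of_she (she h))
    · push Not at hab
      exact Pool.Shelah.LF.comm_false' (she h) hreg hab

end Pool.Agent.Results.MP_b41eab_al.InvolutionShelah
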