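import Pool.Agent.Work.MP_b41eab_39.StrongC

/-!
# No Shelah groups of singular strong limit cardinality

Let `G` be a group whose cardinality is a singular strong limit cardinal.  Then for every `n` and
every subset `B` with fewer than `|G|` elements there is a subset `A` of full cardinality such that
some element of `G` is not a product of `n` factors from `A ∪ A⁻¹ ∪ B`.  In particular `G` is not
`n`-Shelah for any `n`.  If the generalised continuum hypothesis holds, then the cardinality of
every infinite Shelah group is regular.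
-/

open Cardinal Set
open scoped Pointwise

namespace Pool.Agent.Results.MP_b41eab_al.StrongLimit

universe u

theorem result :
    (∀ (G : Type u) [Group G], (#G).IsStrongLimit → ¬ (#G).IsRegular →
      ∀ (n : ℕ) (B : Set G), #B < #G →
        ∃ A : Set G, #A = #G ∧ (A ∪ A⁻¹ ∪ B) ^ n ≠ Set.univ) ∧
    ((∀ m : Cardinal.{u}, ℵ₀ ≤ m → 2 ^ m = Order.succ m) →
      ∀ (G : Type u) [Group G], ℵ₀ ≤ #G →
        (∃ n : ℕ, ∀ A : Set G, #A = #G → A ^ n = Set.univ) → (#G).IsRegular) :=
  ⟨fun _ _ hlim hsing n B hB =>
    Pool.Agent.Work.MP_b41eab_39.strong_limit hlim hsing n B hB,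
  fun gch _ _ hinf ⟨n, h⟩ => Pool.Agent.Work.MP_b41eab_39.regular_of_gch gch hinf n h⟩

end Pool.Agent.Results.MP_b41eab_al.StrongLimit
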